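import Pool.Agent.Helper25_CON.PDLem

/-! # E_NON: two non orthogonal roots (squad CON, MP_6d18f4_al) -/

set_option autoImplicit false

noncomputable section

namespace Pool.Agent.CON.H47

open Pool.Agent.CON

variable {M : Type} [AddCommGroup M] {b : M → M → ℤ} {C : Set M} {s : ℤ}

theorem neg_mem (hC : Irr b C s) {α : M} (h : α ∈ C) : -α ∈ C := by
  have h1 := hC.refl α h α h 2 (hC.norm α h)
  have h2 : α - (2 : ℤ) • α = -α := by rw [two_smul]; abel
  rwa [h2] at h1

/-- Two roots of norm `2 s` with product not `0` which are not equal up to sign have product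
`± s`. -/
theorem prod_cases (hb : PD b) (hC : Irr b C s) {α β : M} (hα : α ∈ C) (hβ : β ∈ C)
    (h0 : b α β ≠ 0) (h1 : β ≠ α) (h2 : β ≠ -α) : b α β = s ∨ b α β = -s := by
  obtain ⟨k, hk⟩ := hC.dvd α hα β hβ
  have hs := hC.pos
  have e1 := hC.norm α hα
  have e2 := hC.norm β hβ
  have e3 := hb.cs α β
  rw [e1, e2, hk] at e3
  have h3 : k ^ 2 ≤ 4 := by
    have : s ^ 2 * k ^ 2 ≤ s ^ 2 * 4 := by nlinarith
    exact le_of_mul_le_mul_left this (by positivity)
  have h4 : -2 ≤ k := by nlinarith
  have h5 : k ≤ 2 := by nlinarith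
  have e4 : b (α - β) (α - β) = b α α - 2 * b α β + b β β := by
    rw [hb.sub_left, hb.sub_right, hb.sub_right, hb.symm β α]; ring
  have e5 : b (α + β) (α + β) = b α α + 2 * b α β + b β β := by
    rw [hb.add_left, hb.add_right, hb.add_right, hb.symm β α]; ring
  have h6 : k = -2 ∨ k = -1 ∨ k = 0 ∨ k = 1 ∨ k = 2 := by omega
  rcases h6 with rfl | rfl | rfl | rfl | rfl
  · exfalso
    apply h2
    have h7 : α + β = 0 := hb.eq_zero (by rw [e5, e1, e2, hk]; linarith)
    exact (neg_eq_of_add_eq_zero_right h7).symm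
  · right; rw [hk]; ring
  · exact absurd (by rw [hk]; ring) h0
  · left; rw [hk]; ring
  · exfalso
    apply h1
    have h7 : α - β = 0 := hb.eq_zero (by rw [e4, e1, e2, hk]; linarith)
    exact (sub_eq_zero.mp h7).symm

theorem rk_mono {C : Set M} {k k' : ℕ} (h : k' ≤ k) (hk : Rk C k) : Rk C k' := by
  obtain ⟨c, hc, hl⟩ := hk
  exact ⟨fun i => c (Fin.castLE h i), fun i => hc _,
    hl.comp _ (Fin.castLE_injective h)⟩

/-- **E_NON** -/
theorem e_non : E_NON := by
  intro M _ b C s hb hC hR
  obtain ⟨c, hc, hl⟩ := hR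
  have hs := hC.pos
  have hneg : ∀ α ∈ C, -α ∈ C := fun α h => neg_mem hC h
  by_contra hno
  push Not at hno
  have h1 : ({c 0, -c 0} : Set M) = C := by
    refine hC.conn _ ?_ ⟨c 0, by simp⟩ ?_
    · rintro x (rfl | rfl)
      · exact hc 0
      · exact hneg _ (hc 0)
    · intro α hα β hβ hn
      by_contra h0
      have hαC : α ∈ C := by
        rcases hα with rfl | rfl
        · exact hc 0
        · exact hneg _ (hc 0)
      have h3 : β ≠ α := fun h => hn (h ▸ hα)
      have h4 : β ≠ -α := by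
        rintro rfl
        apply hn
        rcases hα with rfl | rfl
        · right; rfl
        · left; exact neg_neg _
      rcases prod_cases hb hC hαC hβ h0 h3 h4 with h5 | h5
      · exact hno α hαC β hβ h5
      · exact hno (-α) (hneg α hαC) β hβ (by rw [hb.neg_left, h5, neg_neg])
  have h2 : c 1 ∈ ({c 0, -c 0} : Set M) := by rw [h1]; exact hc 1
  have h3 := Fintype.linearIndependent_iff.mp hl
  rcases h2 with h2 | h2
  · have h4 := h3 ![1, -1] (by
      rw [Fin.sum_univ_two]; simp [h2]) 0
    simp at h4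
  · have h4 := h3 ![1, 1] (by
      rw [Fin.sum_univ_two]
      have : c 1 = - c 0 := h2
      simp [this]) 0
    simp at h4

end Pool.Agent.CON.H47
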