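import Pool.Agent.Helper47_CON.Non

/-! # H_CAP: capable groups of one or two components (squad CON, MP_6d18f4_al) -/

set_option autoImplicit false

noncomputable section

namespace Pool.Agent.CON.H47

open Pool.Agent.CON

/-- **H_CAP** -/
theorem h_cap (hN : E_NON) : H_CAP := by
  intro M _ b k C s r hb hC
  refine ⟨fun i hi => ?_, fun i j hij hM hj => ?_⟩
  · have h1 : (⋃ l ∈ ({i} : Finset (Fin k)), C l) = C i := by simp
    rw [h1]
    exact hi.2
  · obtain ⟨hodd, -, h2⟩ := hM
    obtain ⟨α, hα, γ, hγ, h3⟩ := hN M b (C i) (s i) hb (hC.irr i) (rk_mono h2 (hC.rk i))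
    obtain ⟨β, hβ⟩ := (hC.irr j).ne
    have hi' : C i ⊆ ⋃ l ∈ ({i, j} : Finset (Fin k)), C l := by
      intro x hx
      simp only [Set.mem_iUnion]
      exact ⟨i, by simp, hx⟩
    have hj' : C j ⊆ ⋃ l ∈ ({i, j} : Finset (Fin k)), C l := by
      intro x hx
      simp only [Set.mem_iUnion]
      exact ⟨j, by simp, hx⟩
    refine ⟨α + β, AddSubgroup.add_mem _ (AddSubgroup.subset_closure (hi' hα))
      (AddSubgroup.subset_closure (hj' hβ)), ?_, γ, AddSubgroup.subset_closure (hi' hγ), ?_⟩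
    · rw [hb.add_left, hb.add_right, hb.add_right, (hC.irr i).norm α hα, (hC.irr j).norm β hβ,
        hC.orth i j hij α hα β hβ, hb.symm β α, hC.orth i j hij α hα β hβ]
      omega
    · rw [hb.add_left, h3, hb.symm β γ, hC.orth i j hij γ hγ β hβ, add_zero]
      exact hodd

end Pool.Agent.CON.H47
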